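import Pool.Agent.H978.QV.Main

/-!
# The quasi-variety generated by `Aut(Ω)`, `Ω` a countable chain: classification

Let `Ω` be a countable chain with non-abelian automorphism group. Exactly one of the following holds.

(a) `Ω` has a nonempty convex subset isomorphic to `ℚ ×ₗ K` (a sum of copies of a chain `K` indexed by
the rationals), and the quasi-variety generated by `Aut(Ω, ≤)` consists of all `ℓ`-groups;

(b) no recursively enumerable set of quasi-identities defines the quasi-variety generated by
`Aut(Ω, ≤)` (in particular the quasi-equational theory of `Aut(Ω, ≤)` is not recursively enumerable).

(If `Aut(Ω)` is abelian, the quasi-variety is that of the abelian `ℓ`-groups, or trivial: known.)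

Method. (b): instances of Post's correspondence problem (undecidable: library module `H16/PCPN`) are
coded by quasi-identities which fail in `Aut(Ω)` if and only if the instance has a solution, for every
chain with non-abelian automorphism group without a descending sequence inside one Archimedean class
(`NoArchDesc`); validity is derivability from any set of axioms (soundness and completeness of
quasi-equational logic) and derivations can be enumerated. (a): for countable `Ω` such a descending
sequence gives a convex equivalence relation with densely ordered homogeneous classes, and
Cantor's theorem with colours gives a convex subset isomorphic to `T ×ₗ K` for every countable chain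
`T`; by Holland's theorem (also proved) every quasi-identity which fails in some `ℓ`-group fails in
`Aut(T)` for some countable chain `T`.

Lemmas formalised by helpers 903, 178, 972, 236, 897, 874, 372, 187, 799, 92, 134, 945, 791, 588, 673,
21, 260, 591, 928, 43, 612, 179, 296, 405, 980, 75, 706, 59, 196, 37, 86, 772, 136, 114.
-/

set_option autoImplicit false

namespace Pool.Agent.Results.MP_39e98c_al.CountableChains

open Pool.Agent.H978.QV

/-- For every countable chain `Ω` with non-commutative automorphism group: the quasi-variety of
`ℓ`-groups generated by `Aut(Ω, ≤)` is defined by some recursively enumerable set of quasi-identities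
if and only if it consists of all `ℓ`-groups (is defined by the empty set), if and only if `Ω` has a
nonempty convex subset isomorphic to `ℚ ×ₗ K` for some chain `K`. -/
theorem result :
    Function.Injective QId.code ∧
    ∀ (Ω : Type) [LinearOrder Ω] [Countable Ω], (∃ f g : Ω ≃o Ω, f * g ≠ g * f) →
      ((∃ S : Set QId, Defines S Ω ∧ RE S) ↔ Defines ∅ Ω) ∧ (Defines ∅ Ω ↔ RatInterval Ω) := by
  refine ⟨code_injective, fun Ω _ _ hna => ?_⟩
  have key : ∀ S : Set QId, Defines S Ω → RE S → RatInterval Ω := by
    intro S hS hre
    by_cases hd : NoArchDesc Ω
    · exact absurd hre (not_re_of_noArchDesc Ω hd hna S hS)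
    · exact interval_of_desc hd ℚ
  have all : RatInterval Ω → Defines ∅ Ω := fun h => all_of_lemb_rat (lemb_of_interval h)
  exact ⟨⟨fun ⟨S, hS, hre⟩ => all (key S hS hre), fun h => ⟨∅, h, re_empty⟩⟩,
    ⟨fun h => key ∅ h re_empty, all⟩⟩

end Pool.Agent.Results.MP_39e98c_al.CountableChains
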