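import Pool.Agent.H978.QV.Backward2
import Pool.Agent.H978.QV.Forward5
import Pool.Agent.H978.QV.Code
import Pool.Agent.H978.QV.Re
import Pool.Agent.H978.QV.Comp2
import Pool.Agent.H978.QV.Cfg
import Pool.Agent.H978.QV.Clos
import Pool.Agent.H978.QV.Enum
import Pool.Agent.H978.QV.RuleEnum
import Pool.Agent.H978.QV.Equiv
import Pool.Agent.H978.QV.Sound
import Pool.Agent.H978.QV.Compl
import Pool.Agent.H978.QV.AutLG
import Pool.Graph.R_pool_sql_team_8f841797.H16.PCPN

/-!
# The quasi-variety generated by `Aut(Ω)`, orbits scattered, has no r.e. set of axioms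

Let `Ω` be a chain with non-commutative automorphism group all of whose orbits on `Ω` are scattered
(for instance a scattered chain). No recursively enumerable set
`S` of quasi-identities defines the quasi-variety of `ℓ`-groups generated by `Aut(Ω, ≤)`. For `S` the
set of all quasi-identities valid in `Aut(Ω, ≤)` this says that the quasi-equational theory of
`Aut(Ω, ≤)` is not recursively enumerable.

Method: the instances of Post's correspondence problem with a fixed second list (library module
`H16/PCPN`) are coded by quasi-identities `qPCP2 H G` which fail in `Aut(Ω)` if and only if the instance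
has a solution; so the set of the `n` for which the quasi-identity of the `n`-th instance is valid is not
r.e. On the other hand, if `S` defines the quasi-variety, then validity is derivability from `S` and
the axioms of `ℓ`-groups (soundness and completeness of quasi-equational logic, the term algebra),
and derivability from an r.e. set is r.e. (all derivations are coded by lists of natural numbers).

Lemmas formalised by helpers 903, 178, 972, 236, 897 (codes, PCP, automorphisms of `ℤ ×ₗ ℤ`),
874, 372, 187, 799, 92, 134, 945, 791 (general scattered chains) and 588, 673, 21, 260, 591, 928, 43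
(quasi-equational logic).
-/

set_option autoImplicit false

namespace Pool.Agent.Results.MP_39e98c_al.ScatteredOrbits

open Pool.Agent.H978.QV

/-- generic composition lemma -/
theorem re_comp {α β γ : Type} [Primcodable α] [Primcodable β] [Primcodable γ]
    {p : γ → Prop} {F : β → γ} {f : α → β}
    (h : REPred p) (hF : Primrec F) (hf : Computable f) : REPred fun a => p (F (f a)) :=
  Partrec.comp h (hF.to_comp.comp hf)

/-- No r.e. set of codes agrees with validity in `Aut(Ω)`. -/
theorem theory_not_re (Ω : Type) [LinearOrder Ω] (hΩ : OrbitScattered Ω)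
    (hna : ∃ f g : Ω ≃o Ω, f * g ≠ g * f) (p : QC → Prop)
    (hp : ∀ q : QId, p q.code ↔ q.Valid Ω) : ¬ REPred p := by
  intro hre
  obtain ⟨H, G, hH, hd, hn⟩ := Pool.Agent.H16.PCPU.main2
  have hn' : ¬ ComputablePred fun n => Solv (H n) G := hn
  refine not_re G H hH hn' ?_
  have h1 := re_comp hre primrec_codeF (Computable.pair hH (Computable.const G))
  refine h1.of_eq fun n => ?_
  obtain ⟨hlen, -, hHn, hGn⟩ := hd n
  refine (hp (qPCP2 (H n) G)).trans ?_
  constructor
  · intro hv hs
    exact not_valid_of_solv2 (config_of_noncomm hΩ hna) hHn hs hv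
  · intro hs
    by_contra hv
    exact hs (solv_of_not_valid2 (fun h ω => no_descent hΩ h ω) hlen hHn hGn hv)

/-- The members of `S` define the quasi-variety generated by `Aut(Ω)`: an `ℓ`-group satisfies all
members of `S` if and only if it satisfies all quasi-identities valid in `Aut(Ω)`. -/
def Defines (S : Set QId) (Ω : Type) [LinearOrder Ω] : Prop :=
  ∀ (G : Type) [Group G] [Lattice G] [MulLeftMono G] [MulRightMono G],
    (∀ q ∈ S, q.HoldsIn G) ↔ ∀ q : QId, q.Valid Ω → q.HoldsIn G

/-- validity is derivability -/
theorem valid_iff_der {Ω : Type} [LinearOrder Ω] {S : Set QId} (h : Defines S Ω) (q : QId) :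
    Der S q.prem q.concl.1 q.concl.2 ↔ q.Valid Ω := by
  constructor
  · intro hd
    obtain ⟨G, _, _, _, _, h1⟩ := aut_lgroup Ω
    rw [← h1]
    have hS : ∀ q ∈ S, q.HoldsIn G := (h G).mpr fun q hq => (h1 q).mpr hq
    intro ρ hρ
    exact der_sound S G hS q.prem _ _ hd ρ hρ
  · intro hv
    obtain ⟨G, _, _, _, _, ρ, h1, h2, h3⟩ := der_complete S q.prem
    exact h3 _ _ ((h G).mp h1 q hv ρ h2)

/-- the judgement of a code -/
def jOf (c : QC) : Jd := eqJ c.1 c.2.1 c.2.2

theorem primrec_jOf : Primrec jOf :=
  (Primrec.pair (Primrec.const 2) (Primrec.pair (Primrec.const []) (Primrec.pair Primrec.fst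
    (Primrec.pair (Primrec.fst.comp Primrec.snd) (Primrec.snd.comp Primrec.snd)))))

/-- the codes of the members of `S` and of the axioms of `ℓ`-groups -/
def codes (S : Set QId) : Set QC := {c | ∃ q : QId, (q ∈ S ∨ q ∈ lgAx) ∧ q.code = c}

theorem enum_codes (S : Set QId) (hS : REPred fun c : QC => ∃ q : QId, q ∈ S ∧ q.code = c) :
    ∃ g : ℕ → Option QC, Computable g ∧ ∀ c, c ∈ codes S ↔ ∃ n, g n = some c := by
  obtain ⟨g, hg, h⟩ := enum_of_re _ hS
  let L : List QC := lgAx.map QId.code
  refine ⟨fun n => Option.casesOn (motive := fun _ => Option QC) (L[n]?) (g (n - L.length)) some,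
    ?_, fun c => ?_⟩
  · refine Computable.option_casesOn (Primrec.to_comp ?_) ?_ ?_
    · exact Primrec.list_getElem?.comp (Primrec.const L) Primrec.id
    · exact hg.comp (Primrec.nat_sub.comp Primrec.id (Primrec.const L.length)).to_comp
    · exact Computable.option_some.comp Computable.snd
  · constructor
    · rintro ⟨q, hq | hq, rfl⟩
      · obtain ⟨n, hn⟩ := (h q.code).mp ⟨q, hq, rfl⟩
        refine ⟨n + L.length, ?_⟩
        have h1 : L[n + L.length]? = none := List.getElem?_eq_none (by omega)
        simp only [h1, Nat.add_sub_cancel, hn]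
      · have h1 : q.code ∈ L := List.mem_map_of_mem hq
        obtain ⟨n, hn⟩ := List.mem_iff_getElem?.mp h1
        exact ⟨n, by simp only [hn]⟩
    · rintro ⟨n, hn⟩
      cases h1 : L[n]? with
      | none =>
        simp only [h1] at hn
        obtain ⟨q, hq, hc⟩ := (h c).mpr ⟨_, hn⟩
        exact ⟨q, Or.inl hq, hc⟩
      | some d =>
        simp only [h1, Option.some.injEq] at hn
        obtain ⟨q, hq, hc⟩ := List.mem_map.mp (List.mem_of_getElem? h1)
        exact ⟨q, Or.inr hq, hc.trans hn⟩

/-- The set of judgements derivable from an r.e. set of codes is r.e. -/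
theorem re_clR (S : Set QId) (hS : REPred fun c : QC => ∃ q : QId, q ∈ S ∧ q.code = c) :
    REPred (ClR (codes S)) := by
  obtain ⟨g, hg, h⟩ := enum_codes S hS
  obtain ⟨r, hr, h2⟩ := rule_enum (codes S) g hg h
  refine (cl_re r hr).of_eq fun j => ⟨fun hj => ?_, fun hj => ?_⟩
  · induction hj with
    | mk n ps c hn _ ih => exact ClR.mk ps c ((h2 ps c).mpr ⟨n, hn⟩) ih
  · induction hj with
    | mk ps c hn _ ih =>
      obtain ⟨n, hn⟩ := (h2 ps c).mp hn
      exact Cl.mk n ps c hn ih

/-- For every chain `Ω` with scattered orbits (for instance every scattered chain) whose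
automorphism group is not commutative, no recursively
enumerable set of quasi-identities defines the quasi-variety of `ℓ`-groups generated by
`Aut(Ω, ≤)`. -/
theorem result :
    Function.Injective QId.code ∧
    ∀ (Ω : Type) [LinearOrder Ω], OrbitScattered Ω → (∃ f g : Ω ≃o Ω, f * g ≠ g * f) →
      ∀ S : Set QId, Defines S Ω →
        ¬ REPred fun c : (List (List ℕ × List ℕ) × (List ℕ × List ℕ)) =>
          ∃ q : QId, q ∈ S ∧ q.code = c := by
  refine ⟨code_injective, fun Ω _ hΩ hna S hS hre => ?_⟩
  refine theory_not_re Ω hΩ hna (fun c => ClR (codes S) (jOf c)) (fun q => ?_)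
    (re_comp (re_clR S hre) primrec_jOf Computable.id)
  exact (clR_iff_der S q.prem q.concl.1 q.concl.2).trans (valid_iff_der hS q)

end Pool.Agent.Results.MP_39e98c_al.ScatteredOrbits
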